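import Pool.Agent.Helper92.UQ.Goals

/-!
# Packet T3-UNIQ (MP_a41896_nt)
-/

set_option autoImplicit false

open MvPolynomial Pool.Agent.Helper92.UQ

namespace Pool.Agent.Helper49.UQ.UNIQ

theorem notMem_of_deg {K σ : Type} [Field K] {i : σ} {p : MvPolynomial σ K}
    (h : p.degreeOf i = 0) : i ∉ p.vars := by
  classical
  intro hi
  obtain ⟨d, hd, hi⟩ := (MvPolynomial.mem_vars i).1 hi
  have h1 := MvPolynomial.monomial_le_degreeOf i hd
  rw [h] at h1
  exact (Finsupp.mem_support_iff.1 hi) (Nat.le_zero.1 h1)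

theorem deg_pos {K σ : Type} [Field K] {B : σ → Polynomial K} {n : σ → K}
    {h : MvPolynomial σ K} {i1 : σ} (hn : n i1 ≠ 0) (hI : Inv B n h) : 1 ≤ h.degreeOf i1 := by
  by_contra hc
  have h0 : h.degreeOf i1 = 0 := by omega
  have h1 : pderiv i1 h = 0 := pderiv_eq_zero_of_notMem_vars (notMem_of_deg h0)
  obtain ⟨i, hi⟩ := hI.ex
  apply hi
  have h2 := hI.dvd i i1
  rw [h1] at h2
  have h3 : C (n i1) * Bq B i * pderiv i h ^ 2 - C (n i) * Bq B i1 * 0 ^ 2 =
      C (n i1) * (Bq B i * pderiv i h ^ 2) := by ring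
  rw [h3] at h2
  have hu : IsUnit (C (n i1) : MvPolynomial σ K) := (IsUnit.mk0 _ hn).map C
  exact (hu.dvd_mul_left).1 h2

theorem aeval_off {K σ A : Type} [Field K] [CommRing A] [Algebra K A] {i : σ}
    {p : MvPolynomial σ K} (h : p.degreeOf i = 0) (f g : σ → A) (hfg : ∀ k, k ≠ i → f k = g k) :
    aeval f p = aeval g p := by
  have h1 := notMem_of_deg h
  have h2 := MvPolynomial.eval₂Hom_congr' (f₁ := algebraMap K A) (f₂ := algebraMap K A)
    (g₁ := f) (g₂ := g) (p₁ := p) (p₂ := p) rfl (fun k hk _ => hfg k fun e => h1 (e ▸ hk)) rfl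
  exact h2

theorem t (hORB : ORB) (hODE : ODE) (hTRS : TRS) (hINDS : INDS) (hELIM : ELIM) : UNIQ := by
  intro K _ _ σ _ _ B hB n Ω _ _ _ P hn hP h hI h0
  classical
  obtain ⟨i1, hi1⟩ := Function.ne_iff.1 hn
  have hi1 : n i1 ≠ 0 := hi1
  have : CharZero Ω := charZero_of_injective_algebraMap (algebraMap K Ω).injective
  have hs : ∀ k, ∃ s : Ω, s ^ 2 = Polynomial.aeval (P k) (B k) := fun k =>
    IsAlgClosed.exists_pow_nat_eq _ (by norm_num)
  choose s hs using hs
  have hXY : ∀ k, ∃ X Y : PowerSeries Ω,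
      Sol ((B k).map (algebraMap K Ω)) (P k) (s k) X Y := fun k =>
    (hODE Ω ((B k).map (algebraMap K Ω)) (P k) (s k)).1
  choose X Y hXY using hXY
  have hr : ∀ j, _ := fun j => hORB K σ B hB n i1 Ω P s X Y hi1 hs hXY (h j) (hI j) (h0 j)
  choose r hr1 hr2 hr3 using hr
  have hρ : ∀ k, ∃ ρ : Ω, algebraMap K Ω (n i1) * ρ ^ 2 = algebraMap K Ω (n k) := fun k =>
    ⟨r ⟨0, by positivity⟩ k, hr2 _ k⟩
  choose ρ hρ using hρ
  have hn1 : algebraMap K Ω (n i1) ≠ 0 := by
    rw [Ne, FaithfulSMul.algebraMap_eq_zero_iff]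
    exact hi1
  have hpm : ∀ j k, r j k = ρ k ∨ r j k = - ρ k := by
    intro j k
    have h1 := (hr2 j k).trans (hρ k).symm
    exact sq_eq_sq_iff_eq_or_eq_neg.1 (mul_left_cancel₀ hn1 h1)
  obtain ⟨j, j', hj, hjj⟩ := Fintype.exists_ne_map_eq_of_card_lt
    (fun j : Fin (2 ^ Fintype.card σ + 1) => fun k : σ => decide (r j k = ρ k)) (by
      rw [Fintype.card_fun, Fintype.card_bool, Fintype.card_fin]
      omega)
  have hrr : r j = r j' := by
    funext k
    have h1 : decide (r j k = ρ k) = decide (r j' k = ρ k) := congrFun hjj k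
    have h2 : r j k = ρ k ↔ r j' k = ρ k := by simpa using h1
    by_cases h3 : r j k = ρ k
    · rw [h3, h2.1 h3]
    · have h4 : ¬ r j' k = ρ k := fun e => h3 (h2.2 e)
      rw [(hpm j k).resolve_left h3, (hpm j' k).resolve_left h4]
  refine ⟨j, j', hj, ?_⟩
  by_contra hass
  obtain ⟨R, a, b, hR, hRd, hRe⟩ := hELIM K σ i1 (h j) (h j') (hI j).irr (hI j').irr hass
    (deg_pos hi1 (hI j))
  have hX : ∀ k (q : Polynomial Ω), Polynomial.aeval (X k) q = 0 → q = 0 := by
    intro k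
    refine hTRS Ω ((B k).map (algebraMap K Ω)) (P k) (s k) (X k) (Y k) (hXY k) ?_
    rcases hP k with h1 | h1
    · left
      intro e
      apply h1
      rw [← hs k, e]
      ring
    · right
      rw [Polynomial.derivative_map, Polynomial.eval_map_algebraMap]
      exact h1
  have hz : ∀ c : σ → K, aeval (fun k => PowerSeries.rescale (algebraMap K Ω (c k)) (X k)) R =
      0 := by
    intro c
    rw [aeval_off hRd _ (fun k => PowerSeries.rescale
      (if k = i1 then - ∑ j' ∈ Finset.univ.erase i1, algebraMap K Ω (c j') * r j j'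
        else algebraMap K Ω (c k)) (X k)) (fun k hk => by simp only [hk, if_false]), hRe, map_add,
      map_mul, map_mul, hr3 j c]
    rw [hrr, hr3 j' c, mul_zero, mul_zero, add_zero]
  have hR0 : MvPolynomial.map (algebraMap K Ω) R = 0 := by
    refine hINDS K Ω σ X hX _ fun c => ?_
    rw [MvPolynomial.aeval_map_algebraMap]
    exact hz c
  apply hR
  exact MvPolynomial.map_injective _ (algebraMap K Ω).injective (by rw [hR0, map_zero])

end Pool.Agent.Helper49.UQ.UNIQ
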